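import Pool.Agent.Y63.NV.Stm

/-!
# Project NV: class functions vanishing at nilpotent elements are combinations of irreducible traces
-/

set_option autoImplicit false

open scoped Classical

noncomputable section

namespace Pool.Agent.Y275.NV

open Pool.Agent.Y63.NV

/-! ### Functionals on matrices vanishing on commutators -/

theorem functional_eq {F : Type} [Field F] {d : ℕ} [NeZero d]
    (t : Matrix (Fin d) (Fin d) F →ₗ[F] F) (ht : ∀ X Y, t (X * Y) = t (Y * X)) :
    ∀ X, t X = t (Matrix.single 0 0 1) * X.trace := by
  have h1 : ∀ (i j : Fin d) (a : F), t (Matrix.single i j a) =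
      if i = j then a * t (Matrix.single 0 0 1) else 0 := by
    intro i j a
    split_ifs with h
    · subst h
      have e1 : Matrix.single i i a = Matrix.single i (0 : Fin d) a * Matrix.single (0 : Fin d) i 1 := by
        rw [Matrix.single_mul_single_same, mul_one]
      have e2 : Matrix.single (0 : Fin d) i 1 * Matrix.single i (0 : Fin d) a =
          a • Matrix.single (0 : Fin d) (0 : Fin d) 1 := by
        rw [Matrix.single_mul_single_same, one_mul, Matrix.smul_single, smul_eq_mul, mul_one]
      rw [e1, ht, e2, map_smul, smul_eq_mul]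
    · have e1 : Matrix.single i j a = Matrix.single i j a * Matrix.single j j 1 := by
        rw [Matrix.single_mul_single_same, mul_one]
      have e2 : Matrix.single j j (1 : F) * Matrix.single i j a = 0 := by
        rw [Matrix.single_mul_single_of_ne]
        exact fun h' => h h'.symm
      rw [e1, ht, e2, map_zero]
  intro X
  conv_lhs => rw [Matrix.matrix_eq_sum_single X]
  rw [map_sum]
  have h2 : ∀ i, t (∑ j, Matrix.single i j (X i j)) = X i i * t (Matrix.single 0 0 1) := by
    intro i
    rw [map_sum, Finset.sum_congr rfl fun j _ => h1 i j (X i j), Finset.sum_ite_eq,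
      if_pos (Finset.mem_univ i)]
  rw [Finset.sum_congr rfl fun i _ => h2 i, ← Finset.sum_mul, mul_comm]
  rfl

/-! ### The irreducible representations given by surjections to matrix algebras -/

section
variable {F : Type} [Field F] {N : Type} [Group N] {d : ℕ}

/-- the representation on column vectors -/
def rp (π : MonoidAlgebra F N →ₐ[F] Matrix (Fin d) (Fin d) F) : Representation F N (Fin d → F) :=
  (((Matrix.toLinAlgEquiv' : Matrix (Fin d) (Fin d) F ≃ₐ[F] _).toAlgHom.comp π : _ →* _)).comp
    (MonoidAlgebra.of F N)

theorem rp_apply (π : MonoidAlgebra F N →ₐ[F] Matrix (Fin d) (Fin d) F) (g : N) (v : Fin d → F) :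
    rp π g v = (π (MonoidAlgebra.single g 1)).mulVec v := rfl

theorem rp_char (π : MonoidAlgebra F N →ₐ[F] Matrix (Fin d) (Fin d) F) (g : N) :
    (rp π).character g = (π (MonoidAlgebra.single g 1)).trace := by
  have h : (rp π) g = Matrix.toLin' (π (MonoidAlgebra.single g 1)) := by
    ext1
    rfl
  unfold Representation.character
  rw [h, Matrix.trace_toLin'_eq]

theorem rp_irr [NeZero d] (π : MonoidAlgebra F N →ₐ[F] Matrix (Fin d) (Fin d) F)
    (hπ : Function.Surjective π) : (rp π).IsIrreducible := by
  have hstab : ∀ (W : Subrepresentation (rp π)) (a : MonoidAlgebra F N) (v : Fin d → F),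
      v ∈ W.toSubmodule → (π a).mulVec v ∈ W.toSubmodule := by
    intro W a v hv
    induction a using MonoidAlgebra.induction_on with
    | of g => exact W.apply_mem_toSubmodule g hv
    | add x y hx hy =>
      rw [map_add, Matrix.add_mulVec]
      exact W.toSubmodule.add_mem hx hy
    | smul r x hx =>
      rw [map_smul, Matrix.smul_mulVec]
      exact W.toSubmodule.smul_mem r hx
  have hbt : ∀ W : Subrepresentation (rp π), W = ⊥ ∨ W = ⊤ := by
    intro W
    by_cases h : W.toSubmodule = ⊥
    · left
      apply Subrepresentation.toSubmodule_injective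
      exact h
    · right
      apply Subrepresentation.toSubmodule_injective
      change W.toSubmodule = ⊤
      obtain ⟨v, hv, hv0⟩ := Submodule.exists_mem_ne_zero_of_ne_bot h
      obtain ⟨j, hj⟩ : ∃ j, v j ≠ 0 := by
        by_contra hcon
        push Not at hcon
        exact hv0 (funext hcon)
      rw [Submodule.eq_top_iff']
      intro w
      obtain ⟨a, ha⟩ := hπ (Matrix.of fun k l => if l = j then w k / v j else 0)
      have h1 := hstab W a v hv
      rw [ha] at h1
      convert h1 using 1
      funext k
      simp only [Matrix.mulVec, dotProduct, Matrix.of_apply, ite_mul, zero_mul]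
      rw [Finset.sum_ite_eq']
      simp [hj]
  have hnt : Nontrivial (Subrepresentation (rp π)) := by
    refine ⟨⊥, ⊤, fun h => ?_⟩
    have h1 : (⊥ : Submodule F (Fin d → F)) = ⊤ :=
      congrArg (fun W : Subrepresentation (rp π) => W.toSubmodule) h
    exact bot_ne_top h1
  exact { eq_bot_or_eq_top := hbt }

end

theorem wed : S_WED := by
  intro F _ _ N _ _ f hf hnil
  let _ : Fintype N := Fintype.ofFinite N
  -- the functional
  let τ : MonoidAlgebra F N →ₗ[F] F :=
    { toFun := fun a => ∑ g, a.coeff g * f g
      map_add' := fun a b => by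
        simp only [MonoidAlgebra.coeff_add, Finsupp.add_apply, add_mul, Finset.sum_add_distrib]
      map_smul' := fun c a => by
        simp only [MonoidAlgebra.coeff_smul, Finsupp.smul_apply, smul_eq_mul, mul_assoc,
          RingHom.id_apply, Finset.mul_sum] }
  have hτs : ∀ (g : N) (c : F), τ (MonoidAlgebra.single g c) = c * f g := by
    intro g c
    change ∑ h, (MonoidAlgebra.single g c).coeff h * f h = _
    rw [Finset.sum_eq_single g]
    · rw [MonoidAlgebra.coeff_single, Finsupp.single_eq_same]
    · intro h _ hne
      rw [MonoidAlgebra.coeff_single, Finsupp.single_eq_of_ne hne, zero_mul]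
    · intro h
      exact absurd (Finset.mem_univ g) h
  have hcomm : ∀ a b : MonoidAlgebra F N, τ (a * b) = τ (b * a) := by
    intro a b
    induction a using MonoidAlgebra.induction_linear with
    | zero => rw [zero_mul, mul_zero]
    | add x y hx hy => rw [add_mul, mul_add, map_add, map_add, hx, hy]
    | single g c =>
      induction b using MonoidAlgebra.induction_linear with
      | zero => rw [zero_mul, mul_zero]
      | add x y hx hy => rw [add_mul, mul_add, map_add, map_add, hx, hy]
      | single h e =>
        rw [MonoidAlgebra.single_mul_single, MonoidAlgebra.single_mul_single, hτs, hτs]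
        have h1 := hf g (h * g)
        have h2 : g * (h * g) * g⁻¹ = g * h := by group
        rw [h2] at h1
        rw [h1]
        ring
  have hnil' : ∀ a : MonoidAlgebra F N, IsNilpotent a → τ a = 0 := by
    intro a ha
    have h1 : ∑ᶠ g : N, MonoidAlgebra.single g (a.coeff g) = a := by
      rw [finsum_eq_sum_of_fintype]
      apply MonoidAlgebra.coeff_injective
      rw [MonoidAlgebra.coeff_sum]
      simp only [MonoidAlgebra.coeff_single]
      exact Finsupp.univ_sum_single a.coeff
    have h2 := hnil (fun g => a.coeff g) (by rw [h1]; exact ha)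
    rw [finsum_eq_sum_of_fintype] at h2
    exact h2
  -- the semisimple quotient
  have : FiniteDimensional F (MonoidAlgebra F N) := by
    infer_instance
  have : IsArtinianRing (MonoidAlgebra F N) := IsArtinianRing.of_finite F (MonoidAlgebra F N)
  have hJn : ∀ a ∈ Ring.jacobson (MonoidAlgebra F N), IsNilpotent a := by
    obtain ⟨n, hn⟩ := IsSemiprimaryRing.isNilpotent (R := MonoidAlgebra F N)
    intro a ha
    have h1 := Ideal.pow_mem_pow ha n
    rw [hn] at h1
    exact ⟨n, h1⟩
  have : IsSemisimpleRing (MonoidAlgebra F N ⧸ Ring.jacobson (MonoidAlgebra F N)) :=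
    IsSemiprimaryRing.isSemisimpleRing
  have : FiniteDimensional F (MonoidAlgebra F N ⧸ Ring.jacobson (MonoidAlgebra F N)) :=
    Module.Finite.of_surjective
      (Ideal.Quotient.mkₐ F (Ring.jacobson (MonoidAlgebra F N))).toLinearMap
      (Ideal.Quotient.mkₐ_surjective F _)
  obtain ⟨n, d, hd, ⟨e⟩⟩ := IsSemisimpleRing.exists_algEquiv_pi_matrix_of_isAlgClosed F
    (MonoidAlgebra F N ⧸ Ring.jacobson (MonoidAlgebra F N))
  let π : MonoidAlgebra F N →ₐ[F] (Π i, Matrix (Fin (d i)) (Fin (d i)) F) :=
    e.toAlgHom.comp (Ideal.Quotient.mkₐ F (Ring.jacobson (MonoidAlgebra F N)))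
  have hπs : Function.Surjective π :=
    e.surjective.comp (Ideal.Quotient.mkₐ_surjective F _)
  have hπk : ∀ a, π a = 0 → τ a = 0 := by
    intro a ha
    apply hnil'
    apply hJn
    have h1 : Ideal.Quotient.mkₐ F (Ring.jacobson (MonoidAlgebra F N)) a = 0 := by
      have h2 : e (Ideal.Quotient.mkₐ F (Ring.jacobson (MonoidAlgebra F N)) a) = 0 := ha
      exact (map_eq_zero_iff e e.injective).1 h2
    exact Ideal.Quotient.eq_zero_iff_mem.1 h1
  obtain ⟨s, hs⟩ := π.toLinearMap.exists_rightInverse_of_surjective
    (LinearMap.range_eq_top.2 hπs)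
  have hs' : ∀ x, π (s x) = x := fun x => congrArg (fun l => l x) hs
  let t : (Π i, Matrix (Fin (d i)) (Fin (d i)) F) →ₗ[F] F := τ.comp s
  have ht : ∀ a, t (π a) = τ a := by
    intro a
    have h1 : τ (s (π a) - a) = 0 := hπk _ (by rw [map_sub, hs', sub_self])
    rw [map_sub, sub_eq_zero] at h1
    exact h1
  have htc : ∀ x y, t (x * y) = t (y * x) := by
    intro x y
    obtain ⟨a, rfl⟩ := hπs x
    obtain ⟨b, rfl⟩ := hπs y
    rw [← map_mul, ← map_mul, ht, ht, hcomm]
  let ti : ∀ i, Matrix (Fin (d i)) (Fin (d i)) F →ₗ[F] F := fun i =>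
    t.comp (LinearMap.single F (fun i => Matrix (Fin (d i)) (Fin (d i)) F) i)
  have htic : ∀ (i : Fin n) (X Y : Matrix (Fin (d i)) (Fin (d i)) F), ti i (X * Y) = ti i (Y * X) := by
    intro i X Y
    have hsm : ∀ X Y : Matrix (Fin (d i)) (Fin (d i)) F,
        LinearMap.single F (fun i => Matrix (Fin (d i)) (Fin (d i)) F) i (X * Y) =
        LinearMap.single F (fun i => Matrix (Fin (d i)) (Fin (d i)) F) i X *
          LinearMap.single F (fun i => Matrix (Fin (d i)) (Fin (d i)) F) i Y := by
      intro X Y
      funext j
      rw [Pi.mul_apply]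
      by_cases hj : j = i
      · subst hj
        simp only [LinearMap.coe_single, Pi.single_eq_same]
      · simp only [LinearMap.coe_single, Pi.single_eq_of_ne hj, zero_mul]
    change t (LinearMap.single F _ i (X * Y)) = t (LinearMap.single F _ i (Y * X))
    rw [hsm, hsm, htc]
  have hsum : ∀ x, t x = ∑ i, ti i (x i) := by
    intro x
    conv_lhs => rw [← Finset.univ_sum_single x]
    rw [map_sum]
    rfl
  let πi : ∀ i, MonoidAlgebra F N →ₐ[F] Matrix (Fin (d i)) (Fin (d i)) F := fun i =>
    (Pi.evalAlgHom F (fun i => Matrix (Fin (d i)) (Fin (d i)) F) i).comp π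
  have hπis : ∀ i, Function.Surjective (πi i) := by
    intro i X
    obtain ⟨a, ha⟩ := hπs (Pi.single i X)
    refine ⟨a, ?_⟩
    change π a i = X
    rw [ha, Pi.single_eq_same]
  have hfin : f = ∑ i, (haveI := hd i; ti i (Matrix.single 0 0 1)) • (rp (πi i)).character := by
    funext g
    have h1 : f g = τ (MonoidAlgebra.single g 1) := by rw [hτs, one_mul]
    rw [h1, ← ht, hsum, Finset.sum_apply]
    refine Finset.sum_congr rfl fun i _ => ?_
    have := hd i
    rw [functional_eq (ti i) (htic i), Pi.smul_apply, smul_eq_mul, rp_char]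
    rfl
  rw [hfin]
  refine Submodule.sum_mem _ fun i _ => Submodule.smul_mem _ _ (Submodule.subset_span ?_)
  have := hd i
  exact ⟨Fin (d i) → F, inferInstance, inferInstance, inferInstance, rp (πi i),
    rp_irr (πi i) (hπis i), rfl⟩

end Pool.Agent.Y275.NV
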